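import Pool.Agent.K4H65.EM.Spec

set_option autoImplicit false

namespace Pool.Agent.K4H65.EM

open Finset

theorem embeds_self {n : ℕ} (ρ : Fin n → Fin n → ℝ) (h : IsMetric ρ) : Embeds n n ρ := by
  obtain ⟨h0, hp, hs, ht⟩ := h
  have hnn : ∀ x y, 0 ≤ ρ x y := by
    intro x y
    by_cases hxy : x = y
    · rw [hxy, h0]
    · exact (hp x y hxy).le
  refine ⟨fun x i => ρ x i, fun x y => le_antisymm ?_ ?_⟩
  · rw [pi_norm_le_iff_of_nonneg (hnn x y)]
    intro i
    simp only [Pi.sub_apply, Real.norm_eq_abs, abs_le]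
    constructor
    · have := ht y x i
      rw [hs y x] at this
      linarith
    · linarith [ht x y i]
  · have := norm_le_pi_norm ((fun i => ρ x i) - fun i => ρ y i) y
    simp only [Pi.sub_apply, h0, sub_zero, Real.norm_eq_abs] at this
    exact (le_abs_self _).trans this

theorem fin : S_MET → S_COMB → S_RAND → S_FIN := by
  intro hmet hcomb hrand
  refine ⟨9 * 2 ^ 38, fun n hn => ?_⟩
  set l := Nat.log 2 n + 1 with hl
  have hl1 : 1 ≤ l := by omega
  have hnl : n < 2 ^ l := Nat.lt_pow_succ_log_self (by norm_num) n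
  obtain ⟨G, hP1, hP2⟩ := hrand n l hl1 hnl
  obtain ⟨ρ, hρ, hcov⟩ := hmet n G
  have hne : {d | 1 ≤ d ∧ ∀ ρ : Fin n → Fin n → ℝ, IsMetric ρ → Embeds n d ρ}.Nonempty :=
    ⟨n, by omega, fun ρ hρ => embeds_self ρ hρ⟩
  have hmem : dim n ∈ {d | 1 ≤ d ∧ ∀ ρ : Fin n → Fin n → ℝ, IsMetric ρ → Embeds n d ρ} :=
    Nat.sInf_mem hne
  obtain ⟨S, hS⟩ := hcov (dim n) (hmem.2 ρ hρ)
  have h1 := hcomb n (dim n) (2 ^ 37 * l) (2 ^ 19 * l) G S
    (Nat.mul_pos (Nat.two_pow_pos 19) hl1) hP1 hP2 hS l univ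
    (by rw [card_univ, Fintype.card_fin]; exact hnl)
  rw [card_univ, Fintype.card_fin] at h1
  have h2 : act S univ ≤ dim n := by
    classical
    unfold act
    refine (card_le_univ _).trans ?_
    rw [Fintype.card_fin]
  have h3 : n ≤ dim n + 2 ^ 37 * l + 2 * (2 ^ 19 * l) * l :=
    h1.trans (Nat.add_le_add_right (Nat.add_le_add_right h2 _) _)
  have h4 : (n : ℝ) ≤ dim n + 2 ^ 37 * l + 2 * (2 ^ 19 * l) * l := by exact_mod_cast h3
  have hl1' : (1 : ℝ) ≤ l := by exact_mod_cast hl1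
  have hlog : (l : ℝ) ≤ 3 * Real.log n := by
    have hn0 : n ≠ 0 := by omega
    have h5 : 2 ^ Nat.log 2 n ≤ n := Nat.pow_log_le_self 2 hn0
    have h6 : ((2 : ℝ) ^ Nat.log 2 n) ≤ n := by exact_mod_cast h5
    have h7 := Real.log_le_log (by positivity) h6
    rw [Real.log_pow] at h7
    have h8 : Real.log 2 ≤ Real.log n := Real.log_le_log (by norm_num) (by exact_mod_cast hn)
    have h9 := Real.log_two_gt_d9
    have h10 : (l : ℝ) = Nat.log 2 n + 1 := by rw [hl]; push_cast; ring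
    have h11 : (0 : ℝ) ≤ (Nat.log 2 n : ℝ) := by positivity
    rw [h10]
    nlinarith
  have hlogn : 0 ≤ Real.log n := by linarith
  have h12 : (l : ℝ) ^ 2 ≤ 9 * Real.log n ^ 2 := by nlinarith
  have h13 : (l : ℝ) ≤ (l : ℝ) ^ 2 := by nlinarith
  nlinarith

end Pool.Agent.K4H65.EM
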