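import Mathlib

/-!
MP_293cc0_an: `n - d(n) = O((log n)^2)`.  Spec.

`q = 1024`.  For `l` with `n < 2 ^ l` put `L = 2 ^ 37 * l`, `m = 2 ^ 19 * l`.
-/

set_option autoImplicit false

namespace Pool.Agent.K4H65.EM

open Finset

/-- `ρ` is a metric on `Fin n`. -/
def IsMetric {n : ℕ} (ρ : Fin n → Fin n → ℝ) : Prop :=
  (∀ x, ρ x x = 0) ∧ (∀ x y, x ≠ y → 0 < ρ x y) ∧ (∀ x y, ρ x y = ρ y x) ∧
    ∀ x y z, ρ x z ≤ ρ x y + ρ y z

/-- The metric space `(Fin n, ρ)` embeds isometrically into `ℓ_∞^d` (the norm of `Fin d → ℝ` is the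
maximum norm). -/
def Embeds (n d : ℕ) (ρ : Fin n → Fin n → ℝ) : Prop :=
  ∃ f : Fin n → (Fin d → ℝ), ∀ x y, ‖f x - f y‖ = ρ x y

/-- the least `d ≥ 1` such that every `n`-point metric space embeds isometrically into `ℓ_∞^d` -/
noncomputable def dim (n : ℕ) : ℕ :=
  sInf {d | 1 ≤ d ∧ ∀ ρ : Fin n → Fin n → ℝ, IsMetric ρ → Embeds n d ρ}

/-- generic weights -/
def S_GEN : Prop := ∀ n : ℕ, ∃ w : Fin n → Fin n → ℝ, (∀ x y, w x y = w y x) ∧
  (∀ x y, 7 / 4 < w x y ∧ w x y < 2) ∧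
  LinearIndependent ℚ (fun e : {e : Fin n × Fin n // e.1 < e.2} => w e.1.1 e.1.2)

/-- the pairs (lower point, upper point) realised by the coordinates -/
structure Cover {n d : ℕ} (G : SimpleGraph (Fin n)) (S : Fin d → Finset (Fin n × Fin n)) : Prop where
  cov : ∀ x y, G.Adj x y → ∃ i, (x, y) ∈ S i ∨ (y, x) ∈ S i
  bic : ∀ i a b a' b', (a, b) ∈ S i → (a', b') ∈ S i → G.Adj a b'
  forest : ∀ i, ∀ T ⊆ S i, T.card ≤ (T.image Prod.fst).card + (T.image Prod.snd).card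

/-- MET: `theorem met : S_GEN → S_MET`.
Metric: `w x y` on the edges, `1` on the other pairs, `0` on the diagonal.
`S i` = pairs `(a, b)` with `G.Adj a b` and `f b i - f a i = w a b`.
bic: `f b - f a > 7/4`, `f b' - f a' > 7/4`, `f a' ≥ f b - 2` so `f b' - f a > 3/2 > 1`.
forest: the numbers `w a b = f b i - f a i`, `(a, b) ∈ T`, are linearly independent over `ℚ`
((a, b), (b, a) are not both in `S i`), and lie in the span of the numbers `f z i`,
`z ∈ image fst ∪ image snd`. -/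
def S_MET : Prop := ∀ (n : ℕ) (G : SimpleGraph (Fin n)), ∃ ρ : Fin n → Fin n → ℝ, IsMetric ρ ∧
  ∀ d : ℕ, Embeds n d ρ → ∃ S : Fin d → Finset (Fin n × Fin n), Cover G S

open Classical in
/-- many edges in every set of at least `L` vertices -/
def P1 {n : ℕ} (G : SimpleGraph (Fin n)) (L : ℕ) : Prop := ∀ U : Finset (Fin n), L ≤ U.card →
  U.card ^ 2 ≤ 8 * 1024 * ((U ×ˢ U).filter fun e => G.Adj e.1 e.2).card

open Classical in
/-- the number of the common neighbours of `v` and `w` in `U` -/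
noncomputable def cn {n : ℕ} (G : SimpleGraph (Fin n)) (U : Finset (Fin n)) (v w : Fin n) : ℕ :=
  (U.filter fun x => G.Adj v x ∧ G.Adj w x).card

/-- there are no `m` disjoint pairs with many common neighbours in `U` -/
def P2 {n : ℕ} (G : SimpleGraph (Fin n)) (L m : ℕ) : Prop := ∀ U : Finset (Fin n), L ≤ U.card →
  ∀ g : Fin m × Fin 2 → Fin n, Function.Injective g →
    ∃ j, 64 * 1024 * cn G U (g (j, 0)) (g (j, 1)) < U.card

open Classical in
/-- the number of the coordinates which realise a pair inside `U` -/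
noncomputable def act {n d : ℕ} (S : Fin d → Finset (Fin n × Fin n)) (U : Finset (Fin n)) : ℕ :=
  (univ.filter fun i => ∃ e ∈ S i, e.1 ∈ U ∧ e.2 ∈ U).card

/-- TT: `theorem tt : S_TT`.  Maximal family of disjoint bad pairs (largest `k` for which an injective
`g : Fin k × Fin 2 → Fin n` with all pairs bad exists; `k < m`; `T` = its range). -/
def S_TT : Prop := ∀ (n L m : ℕ) (G : SimpleGraph (Fin n)), 1 ≤ m → P2 G L m → ∀ U : Finset (Fin n),
  L ≤ U.card → ∃ T : Finset (Fin n), T.card ≤ 2 * m ∧ ∀ v ∉ T, ∀ w ∉ T, v ≠ w →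
    64 * 1024 * cn G U v w < U.card

/-- STEP: `theorem step : S_TT → S_STEP`.  Take `T` from TT, `U' = U \ T`, `S i ∩ (U' × U')` with
lower points `A i`, upper points `B i`. Type I: nonempty and (`(A i).card ≤ 1` or `(B i).card ≤ 1`),
choose its centre; `k1` = number of type I; type II: both `≥ 2`, `k2` = number. Then
`64 * 1024 * (A i).card < U.card`, same for `B i` (biclique), so `64 * 1024 * |S i ∩ U'×U'| ≤
2 * U.card`. `U1 = U' \ centres`: `act S U1 ≤ k2`, `k1 + k2 ≤ act S U`,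
`U.card ≤ U1.card + 2 * m + k1`; if `L ≤ U1.card` then `P1` gives
`U1.card ^ 2 ≤ 8 * 1024 * 2 * ∑_{type II} |S i ∩ U1×U1|`, so `2 * U1.card ^ 2 ≤ k2 * U.card`. -/
def S_STEP : Prop := ∀ (n d L m : ℕ) (G : SimpleGraph (Fin n)) (S : Fin d → Finset (Fin n × Fin n)),
  1 ≤ m → P1 G L → P2 G L m → Cover G S → ∀ U : Finset (Fin n), L ≤ U.card →
    ∃ (U1 : Finset (Fin n)) (k1 k2 : ℕ), act S U1 ≤ k2 ∧ k1 + k2 ≤ act S U ∧
      U.card ≤ U1.card + 2 * m + k1 ∧ (L ≤ U1.card → 2 * U1.card ^ 2 ≤ k2 * U.card)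

/-- COMB: `theorem comb : S_STEP → S_COMB`.  Induction on `k`. -/
def S_COMB : Prop := ∀ (n d L m : ℕ) (G : SimpleGraph (Fin n)) (S : Fin d → Finset (Fin n × Fin n)),
  1 ≤ m → P1 G L → P2 G L m → Cover G S → ∀ (k : ℕ) (U : Finset (Fin n)), U.card < 2 ^ k →
    U.card ≤ act S U + L + 2 * m * k

/-- the random graph: `x, y` are adjacent if the label of `(min, max)` is `0` -/
def gr {n : ℕ} (ω : Fin n × Fin n → Fin 1024) : SimpleGraph (Fin n) where
  Adj x y := x ≠ y ∧ ω (min x y, max x y) = 0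
  symm := ⟨fun x y h => ⟨h.1.symm, by rw [min_comm, max_comm]; exact h.2⟩⟩
  loopless := ⟨fun x h => h.1 rfl⟩

open Classical in
/-- T1: `theorem t1 : S_T1`.  With `X` = number of the pairs `x < y` in `U` with label `0`, `N` =
number of the pairs `x < y` in `U` (`4 N ≥ U.card ^ 2`): `∑_ω 2^(-X) = 1024^(n*n) (1 - 1/2048)^N`
(`Finset.prod_univ_sum`), and on the set `X < U.card^2 / (16 * 1024)`. `(1 - 1/2048)^2048 ≤ 1/2`. -/
def S_T1 : Prop := ∀ (n l : ℕ) (U : Finset (Fin n)), 1 ≤ l → 2 ^ 37 * l ≤ U.card →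
  (univ.filter fun ω : Fin n × Fin n → Fin 1024 =>
    8 * 1024 * ((U ×ˢ U).filter fun e => (gr ω).Adj e.1 e.2).card < U.card ^ 2).card *
    2 ^ ((l + 1) * U.card + 3) ≤ 1024 ^ (n * n)

open Classical in
/-- T2a: `theorem t2a : S_T2a`.  `W` is disjoint from the range of `g`; `Y` = number of the `(j, x)`,
`x ∈ W`, with `x` adjacent to both `g (j, 0)`, `g (j, 1)`: `2 ^ Y = ∑_{Z ⊆ J × W} [Z ⊆ good pairs]`
(`Finset.prod_one_add` or card of powerset), and for each `Z` the number of `ω` with `0` at the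
`2 |Z|` different places is `1024^(n*n - 2|Z|)`. So `∑_ω 2^Y = 1024^(n*n) (1 + 1024^(-2))^(m |W|)`. -/
def S_T2a : Prop := ∀ (n m : ℕ) (W : Finset (Fin n)) (g : Fin m × Fin 2 → Fin n),
  Function.Injective g → (∀ p, g p ∉ W) →
    ∑ ω : Fin n × Fin n → Fin 1024, (2 : ℝ) ^ (∑ j : Fin m, cn (gr ω) W (g (j, 0)) (g (j, 1))) =
      1024 ^ (n * n) * (1 + 1 / 1024 ^ 2) ^ (m * W.card)

open Classical in
/-- T2: `theorem t2 : S_T2a → S_T2`.  `W = U \ range g`; `cn W ≥ cn U - 2 m ≥ U.card / 2^17`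
(as `2 m ≤ U.card / 2^17`), so `Y ≥ m U.card / 2^17`, `(1 + 1/1024^2)^(m |W|) ≤ 2^(m U.card / 2^19)`;
total exponent `-3 l U.card`. -/
def S_T2 : Prop := ∀ (n l : ℕ) (U : Finset (Fin n)) (g : Fin (2 ^ 19 * l) × Fin 2 → Fin n),
  1 ≤ l → 2 ^ 37 * l ≤ U.card → Function.Injective g →
  (univ.filter fun ω : Fin n × Fin n → Fin 1024 =>
    ∀ j, U.card ≤ 64 * 1024 * cn (gr ω) U (g (j, 0)) (g (j, 1))).card *
    2 ^ ((l + 1) * U.card + 2 * (2 ^ 19 * l) * l + 3) ≤ 1024 ^ (n * n)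

/-- RAND: `theorem rand : S_T1 → S_T2 → S_RAND`.  Union bound: `∑_U 2^(-(l+1)|U|) =
(1 + 2^(-(l+1)))^n ≤ 2` (`Finset.sum_pow_mul_eq_add_pow`), at most `n^(2m) ≤ 2^(2ml)` maps `g`. -/
def S_RAND : Prop := ∀ n l : ℕ, 1 ≤ l → n < 2 ^ l → ∃ G : SimpleGraph (Fin n),
  P1 G (2 ^ 37 * l) ∧ P2 G (2 ^ 37 * l) (2 ^ 19 * l)

/-- FIN: `theorem fin : S_MET → S_COMB → S_RAND → S_FIN`. -/
def S_FIN : Prop := ∃ C : ℝ, ∀ n : ℕ, 2 ≤ n → (n : ℝ) - dim n ≤ C * Real.log n ^ 2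

end Pool.Agent.K4H65.EM
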